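import Pool.Agent.H99R3.BOG.P1

/-!
# Task Proj of the project H566-BOG
-/

set_option autoImplicit false

namespace Pool.Agent.H99R3.BOG

open Module MvPolynomial Pool.Agent.H566R4 Matrix

variable {k : Type} [Field k]

lemma exM (p0 : Fin 3 → k) (h : p0 ≠ 0) :
    ∃ M : Matrix (Fin 3) (Fin 3) k, M.det ≠ 0 ∧ M *ᵥ ![1, 0, 0] = p0 := by
  obtain ⟨j, hj⟩ := Function.ne_iff.1 h
  fin_cases j
  · refine ⟨!![p0 0, 0, 0; p0 1, 1, 0; p0 2, 0, 1], ?_, ?_⟩
    · simpa [det_fin_three] using hj
    · ext i; fin_cases i <;> simp [mulVec, dotProduct, Fin.sum_univ_three]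
  · refine ⟨!![p0 0, 1, 0; p0 1, 0, 0; p0 2, 0, 1], ?_, ?_⟩
    · simpa [det_fin_three] using hj
    · ext i; fin_cases i <;> simp [mulVec, dotProduct, Fin.sum_univ_three]
  · refine ⟨!![p0 0, 1, 0; p0 1, 0, 1; p0 2, 0, 0], ?_, ?_⟩
    · simpa [det_fin_three] using hj
    · ext i; fin_cases i <;> simp [mulVec, dotProduct, Fin.sum_univ_three]

/-- linear forms -/
noncomputable def lf (M : Matrix (Fin 3) (Fin 3) k) (j : Fin 3) : MvPolynomial (Fin 3) k :=
  ∑ l, C (M j l) * X l

/-- substitution -/
noncomputable def sb (M : Matrix (Fin 3) (Fin 3) k) :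
    MvPolynomial (Fin 3) k →ₐ[k] MvPolynomial (Fin 3) k := aeval (lf M)

lemma sb_eval (M : Matrix (Fin 3) (Fin 3) k) (G : MvPolynomial (Fin 3) k) (v : Fin 3 → k) :
    eval v (sb M G) = eval (M *ᵥ v) G := by
  unfold sb
  have h := comp_aeval_apply (aeval v : MvPolynomial (Fin 3) k →ₐ[k] k) (f := lf M) (p := G)
  have e : (fun i => (aeval v : MvPolynomial (Fin 3) k →ₐ[k] k) (lf M i)) = M *ᵥ v := by
    funext i
    simp [lf, mulVec, dotProduct]
  rw [e] at h
  exact h

lemma sb_hom (M : Matrix (Fin 3) (Fin 3) k) {G : MvPolynomial (Fin 3) k} {d : ℕ}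
    (hG : G.IsHomogeneous d) : (sb M G).IsHomogeneous d := by
  have h := hG.aeval (lf M) (n := 1) (fun i => by
    unfold lf
    exact IsHomogeneous.sum _ _ _ (fun l _ => isHomogeneous_C_mul_X _ _))
  rwa [one_mul] at h

lemma sb_comp (M N : Matrix (Fin 3) (Fin 3) k) (G : MvPolynomial (Fin 3) k) :
    sb N (sb M G) = sb (M * N) G := by
  have h := comp_aeval_apply (sb N) (f := lf M) (p := G)
  have e : (fun i => sb N (lf M i)) = lf (M * N) := by
    funext i
    unfold sb
    simp only [lf, map_sum, map_mul, aeval_X, aeval_C, algebraMap_eq, Fin.sum_univ_three,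
      mul_apply, map_add]
    ring
  rw [e] at h
  exact h

lemma sb_one (G : MvPolynomial (Fin 3) k) : sb 1 G = G := by
  have e : lf (1 : Matrix (Fin 3) (Fin 3) k) = X := by
    funext i
    simp [lf, one_apply]
  unfold sb
  rw [e, aeval_X_left]
  rfl

lemma eval_smul' {d : ℕ} {H : MvPolynomial (Fin 3) k} (hH : H.IsHomogeneous d) (a : k)
    (v : Fin 3 → k) : eval (a • v) H = a ^ d * eval v H := by
  conv_lhs => rw [H.as_sum]
  conv_rhs => rw [H.as_sum]
  rw [map_sum, map_sum, Finset.mul_sum]
  refine Finset.sum_congr rfl (fun m hm => ?_)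
  rw [eval_monomial, eval_monomial, Finsupp.prod_fintype _ _ (by simp),
    Finsupp.prod_fintype _ _ (by simp), Fin.prod_univ_three, Fin.prod_univ_three, ← deg3 hH hm]
  simp only [Pi.smul_apply, smul_eq_mul, mul_pow, pow_add]
  ring

theorem taskProj : TaskProj := by
  intro k _ _ d r G hd hdq hr hG hlin
  classical
  let i0 : Fin r := ⟨0, hr⟩
  have hG0 : G i0 ≠ 0 := hlin.ne_zero i0
  obtain ⟨p0, hp0⟩ : ∃ p0, eval p0 (G i0) ≠ 0 := by
    by_contra hcon
    push Not at hcon
    apply hG0
    refine eq_zero_of_eval_zero_at_prod_finset (G i0) (fun _ => Finset.univ) (fun i => ?_)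
      (fun x _ => hcon x)
    rw [Finset.card_univ]
    exact lt_of_le_of_lt ((degreeOf_le_totalDegree _ _).trans (hG i0).totalDegree_le) hdq
  have hp00 : p0 ≠ 0 := by
    intro h0
    apply hp0
    have := eval_smul' (hG i0) 0 0
    rw [h0, ← smul_zero (0 : k), this, zero_pow (by omega), zero_mul]
  obtain ⟨M, hM, hM0⟩ := exM p0 hp00
  have hMu : IsUnit M.det := isUnit_iff_ne_zero.2 hM
  have hMinj : ∀ v w, M *ᵥ v = M *ᵥ w → v = w := by
    intro v w h
    have h2 := congrArg (fun u => M⁻¹ *ᵥ u) h
    simpa [mulVec_mulVec, nonsing_inv_mul _ hMu] using h2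
  have hMv : ∀ v, v ≠ 0 → M *ᵥ v ≠ 0 := by
    intro v hv h
    apply hv
    apply hMinj
    rw [h, mulVec_zero]
  obtain ⟨H, hHdef⟩ : ∃ H : Fin r → MvPolynomial (Fin 3) k, ∀ i, H i = sb M (G i) :=
    ⟨_, fun _ => rfl⟩
  have hH : ∀ i, (H i).IsHomogeneous d := fun i => by rw [hHdef]; exact sb_hom M (hG i)
  have hHe : ∀ i v, eval v (H i) = eval (M *ᵥ v) (G i) := fun i v => by
    rw [hHdef]; exact sb_eval M _ v
  have hflin : LinearIndependent k (fun i => D (H i)) := by
    rw [Fintype.linearIndependent_iff]
    intro g hg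
    have h1 : D (∑ i, g i • H i) = 0 := by
      rw [map_sum, ← hg]
      exact Finset.sum_congr rfl (fun i _ => map_smul _ _ _)
    have h2 := D_inj (d := d) (H := ∑ i, g i • H i)
      ((homogeneousSubmodule (Fin 3) k d).sum_mem (fun i _ => Submodule.smul_mem _ _ (hH i))) h1
    have h3 : sb M (∑ i, g i • G i) = 0 := by
      rw [map_sum, ← h2]
      refine Finset.sum_congr rfl (fun i _ => ?_)
      rw [map_smul, hHdef]
    have h4 : ∑ i, g i • G i = 0 := by
      have h5 := congrArg (sb M⁻¹) h3
      rw [sb_comp, mul_nonsing_inv _ hMu, sb_one, map_zero] at h5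
      exact h5
    exact Fintype.linearIndependent_iff.1 hlin g h4
  let A : Finset (k × k) := Finset.univ.filter (fun a => ∀ i, eval ![a.1, a.2] (D (H i)) = 0)
  let B : Finset k := Finset.univ.filter (fun c => ∀ i, (top k d (D (H i))).eval c = 0)
  refine ⟨Submodule.span k (Set.range (fun i => D (H i))), A, B, ?_, ?_, ?_, ?_, ?_, ?_⟩
  · intro g hg
    induction hg using Submodule.span_induction with
    | mem x hx => obtain ⟨i, rfl⟩ := hx; exact D_deg (hH i)
    | zero => simp
    | add x y _ _ hx hy => exact (totalDegree_add _ _).trans (max_le hx hy)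
    | smul a x _ hx => exact (totalDegree_smul_le a x).trans hx
  · rw [finrank_span_eq_card hflin, Fintype.card_fin]
  · intro g hg a ha
    have ha' := (Finset.mem_filter.1 ha).2
    induction hg using Submodule.span_induction with
    | mem x hx => obtain ⟨i, rfl⟩ := hx; exact ha' i
    | zero => simp
    | add x y _ _ hx hy => rw [map_add, hx, hy, add_zero]
    | smul a x _ hx => rw [smul_eval, hx, mul_zero]
  · intro c
    constructor
    · rintro hc _ ⟨g, hg, rfl⟩
      have hc' := (Finset.mem_filter.1 hc).2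
      have hg' : g ∈ Submodule.span k (Set.range (fun i => D (H i))) := hg
      clear hg
      induction hg' using Submodule.span_induction with
      | mem x hx => obtain ⟨i, rfl⟩ := hx; exact hc' i
      | zero => simp
      | add x y _ _ hx hy => rw [map_add, Polynomial.eval_add, hx, hy, add_zero]
      | smul a x _ hx => rw [map_smul, Polynomial.eval_smul, hx, smul_zero]
    · intro h
      refine Finset.mem_filter.2 ⟨Finset.mem_univ _, fun i => ?_⟩
      exact h _ ⟨D (H i), Submodule.subset_span ⟨i, rfl⟩, rfl⟩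
  · refine ⟨top k d (D (H i0)), ⟨D (H i0), Submodule.subset_span ⟨i0, rfl⟩, rfl⟩, ?_⟩
    apply Polynomial.natDegree_eq_of_le_of_coeff_ne_zero (top_natDegree _)
    rw [top_coeff (hH i0), hHe, hM0]
    exact hp0
  · have hS : ∀ (v : Fin 3 → k) (hv : v ≠ 0), (∀ i, eval (Projectivization.mk k v hv).rep (G i) = 0) ↔
        ∀ i, eval v (G i) = 0 := by
      intro v hv
      obtain ⟨a, ha⟩ := Projectivization.exists_smul_eq_mk_rep k v hv
      rw [← ha]
      have : ∀ i, eval (a • v) (G i) = (a : k) ^ d * eval v (G i) := fun i =>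
        eval_smul' (hG i) (a : k) v
      simp only [this]
      constructor
      · intro h i
        exact (mul_eq_zero.1 (h i)).resolve_left (pow_ne_zero _ a.ne_zero)
      · intro h i
        rw [h i, mul_zero]
    have n1 : ∀ a : k × k, (![a.1, a.2, 1] : Fin 3 → k) ≠ 0 := fun a h => by
      have := congrFun h 2
      simp at this
    have n2 : ∀ c : k, (![c, 1, 0] : Fin 3 → k) ≠ 0 := fun a h => by
      have := congrFun h 1
      simp at this
    let P : k × k → Projectivization k (Fin 3 → k) := fun a =>
      Projectivization.mk k (M *ᵥ ![a.1, a.2, 1]) (hMv _ (n1 a))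
    let Q : k → Projectivization k (Fin 3 → k) := fun c =>
      Projectivization.mk k (M *ᵥ ![c, 1, 0]) (hMv _ (n2 c))
    have hPinj : Function.Injective P := by
      intro a b hab
      obtain ⟨t, ht⟩ := (Projectivization.mk_eq_mk_iff' k _ _ _ _).1 hab
      rw [← mulVec_smul] at ht
      have h := hMinj _ _ ht
      have h0 := congrFun h 0
      have h1 := congrFun h 1
      have h2 := congrFun h 2
      simp at h0 h1 h2
      rw [h2, one_mul] at h0 h1
      exact Prod.ext h0.symm h1.symm
    have hQinj : Function.Injective Q := by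
      intro a b hab
      obtain ⟨t, ht⟩ := (Projectivization.mk_eq_mk_iff' k _ _ _ _).1 hab
      rw [← mulVec_smul] at ht
      have h := hMinj _ _ ht
      have h0 := congrFun h 0
      have h1 := congrFun h 1
      simp at h0 h1
      rw [h1, one_mul] at h0
      exact h0.symm
    have hdisj : Disjoint (P '' (A : Set (k × k))) (Q '' (B : Set k)) := by
      rw [Set.disjoint_left]
      rintro _ ⟨a, -, rfl⟩ ⟨b, -, hb⟩
      obtain ⟨t, ht⟩ := (Projectivization.mk_eq_mk_iff' k _ _ _ _).1 hb
      rw [← mulVec_smul] at ht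
      have h := hMinj _ _ ht
      have h1 := congrFun h 1
      have h2 := congrFun h 2
      simp at h1 h2
      rw [h2] at h1
      simp at h1
    have hset : {x : Projectivization k (Fin 3 → k) | ∀ i, eval x.rep (G i) = 0} =
        P '' (A : Set (k × k)) ∪ Q '' (B : Set k) := by
      ext x
      constructor
      · intro hx
        have hx' : ∀ i, eval x.rep (G i) = 0 := hx
        obtain ⟨w, hw⟩ : ∃ w, M *ᵥ w = x.rep :=
          ⟨M⁻¹ *ᵥ x.rep, by rw [mulVec_mulVec, mul_nonsing_inv _ hMu, one_mulVec]⟩
        have hw0 : w ≠ 0 := by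
          rintro rfl
          rw [mulVec_zero] at hw
          exact x.rep_nonzero hw.symm
        have hHw : ∀ i, eval w (H i) = 0 := fun i => by rw [hHe, hw]; exact hx' i
        by_cases h2 : w 2 = 0
        · by_cases h1 : w 1 = 0
          · exfalso
            have e : w = w 0 • ![1, 0, 0] := by
              ext i; fin_cases i <;> simp [h1, h2]
            have h0 : w 0 ≠ 0 := by
              intro h0
              apply hw0
              rw [e, h0, zero_smul]
            have h := hHw i0
            rw [e, eval_smul' (hH i0), hHe, hM0] at h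
            exact (mul_ne_zero (pow_ne_zero _ h0) hp0) h
          · right
            have e : w = w 1 • ![w 0 / w 1, 1, 0] := by
              ext i; fin_cases i <;> simp [h2]
              field_simp
            refine ⟨w 0 / w 1, ?_, ?_⟩
            · refine Finset.mem_coe.2 (Finset.mem_filter.2 ⟨Finset.mem_univ _, fun i => ?_⟩)
              rw [top_eval (hH i)]
              have h := hHw i
              rw [e, eval_smul' (hH i)] at h
              exact (mul_eq_zero.1 h).resolve_left (pow_ne_zero _ h1)
            · rw [← Projectivization.mk_rep x]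
              refine (Projectivization.mk_eq_mk_iff' k _ _ _ _).2 ⟨(w 1)⁻¹, ?_⟩
              rw [← hw, ← mulVec_smul]
              congr 1
              conv_lhs => rw [e]
              rw [smul_smul]
              simp [h1]
        · left
          have e : w = w 2 • ![w 0 / w 2, w 1 / w 2, 1] := by
            ext i; fin_cases i <;> simp <;> field_simp
          refine ⟨(w 0 / w 2, w 1 / w 2), ?_, ?_⟩
          · refine Finset.mem_coe.2 (Finset.mem_filter.2 ⟨Finset.mem_univ _, fun i => ?_⟩)
            rw [D_eval]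
            have h := hHw i
            rw [e, eval_smul' (hH i)] at h
            exact (mul_eq_zero.1 h).resolve_left (pow_ne_zero _ h2)
          · rw [← Projectivization.mk_rep x]
            refine (Projectivization.mk_eq_mk_iff' k _ _ _ _).2 ⟨(w 2)⁻¹, ?_⟩
            rw [← hw, ← mulVec_smul]
            congr 1
            conv_lhs => rw [e]
            rw [smul_smul]
            simp [h2]
      · rintro (⟨a, ha, rfl⟩ | ⟨c, hc, rfl⟩)
        · have ha' := (Finset.mem_filter.1 (Finset.mem_coe.1 ha)).2
          refine (hS _ (hMv _ (n1 a))).2 (fun i => ?_)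
          rw [← hHe, ← D_eval]
          exact ha' i
        · have hc' := (Finset.mem_filter.1 (Finset.mem_coe.1 hc)).2
          refine (hS _ (hMv _ (n2 c))).2 (fun i => ?_)
          rw [← hHe, ← top_eval (hH i)]
          exact hc' i
    rw [hset, Set.ncard_union_eq hdisj (Set.toFinite _) (Set.toFinite _),
      Set.ncard_image_of_injective _ hPinj, Set.ncard_image_of_injective _ hQinj,
      Set.ncard_coe_finset, Set.ncard_coe_finset]

end Pool.Agent.H99R3.BOG
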