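import Pool.Agent.H566R4.Stmts

/-!
# Task Proj of the project H566-BOG, part 1 (algebra)
-/

set_option autoImplicit false

namespace Pool.Agent.H99R3.BOG

open Module MvPolynomial Pool.Agent.H566R4

variable {k : Type} [Field k]

lemma deg3 {d : ℕ} {H : MvPolynomial (Fin 3) k} (hH : H.IsHomogeneous d) {m : Fin 3 →₀ ℕ}
    (hm : m ∈ H.support) : m 0 + m 1 + m 2 = d := by
  have h := hH (mem_support_iff.1 hm)
  rw [Finsupp.weight_apply, Finsupp.sum_fintype _ _ (by simp)] at h
  simpa [Fin.sum_univ_three] using h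

/-- dehomogenisation -/
noncomputable def D : MvPolynomial (Fin 3) k →ₐ[k] MvPolynomial (Fin 2) k :=
  aeval ![X 0, X 1, 1]

lemma D_mono (m : Fin 3 →₀ ℕ) (c : k) : D (monomial m c) =
    monomial (Finsupp.single 0 (m 0) + Finsupp.single 1 (m 1)) c := by
  unfold D
  rw [aeval_monomial, Finsupp.prod_fintype _ _ (by simp), Fin.prod_univ_three]
  simp only [Matrix.cons_val_zero, Matrix.cons_val_one, Matrix.cons_val_two, Matrix.head_cons,
    Matrix.tail_cons, one_pow, mul_one, algebraMap_eq]
  simp [monomial_add_single, ← C_mul_X_pow_eq_monomial, mul_assoc]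

lemma D_sum (H : MvPolynomial (Fin 3) k) : D H =
    ∑ m ∈ H.support, monomial (Finsupp.single 0 (m 0) + Finsupp.single 1 (m 1)) (coeff m H) := by
  conv_lhs => rw [H.as_sum]
  rw [map_sum]
  exact Finset.sum_congr rfl (fun m _ => D_mono m _)

lemma D_deg {d : ℕ} {H : MvPolynomial (Fin 3) k} (hH : H.IsHomogeneous d) :
    (D H).totalDegree ≤ d := by
  rw [D_sum]
  refine totalDegree_finsetSum_le (fun m hm => ?_)
  refine (totalDegree_monomial_le _ _).trans ?_
  have := deg3 hH hm
  rw [Finsupp.sum_fintype _ _ (by simp)]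
  simp [Fin.sum_univ_two]
  omega

lemma D_inj {d : ℕ} {H : MvPolynomial (Fin 3) k} (hH : H.IsHomogeneous d) (h0 : D H = 0) :
    H = 0 := by
  classical
  ext m
  rw [coeff_zero]
  by_contra hm
  have hm' : m ∈ H.support := mem_support_iff.2 hm
  have e := congrArg (coeff (Finsupp.single 0 (m 0) + Finsupp.single 1 (m 1))) h0
  rw [D_sum, coeff_sum, coeff_zero] at e
  apply hm
  rw [← e]
  symm
  rw [Finset.sum_eq_single m]
  · rw [coeff_monomial, if_pos rfl]
  · intro m' hm2 hne
    rw [coeff_monomial, if_neg]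
    intro h
    apply hne
    have h0 := DFunLike.congr_fun h 0
    have h1 := DFunLike.congr_fun h 1
    simp at h0 h1
    have a := deg3 hH hm'
    have b := deg3 hH hm2
    ext i
    fin_cases i
    · exact h0
    · exact h1
    · show m' 2 = m 2
      omega
  · intro h
    exact absurd hm' h

lemma top_mono {d : ℕ} {m : Fin 3 →₀ ℕ} (hm : m 0 + m 1 + m 2 = d) (c : k) :
    top k d (D (monomial m c)) = aeval ![Polynomial.X, 1, 0] (monomial m c) := by
  classical
  rw [D_mono, aeval_monomial, Finsupp.prod_fintype _ _ (by simp), Fin.prod_univ_three]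
  simp only [Matrix.cons_val_zero, Matrix.cons_val_one, Matrix.cons_val_two, Matrix.head_cons,
    Matrix.tail_cons, one_pow, mul_one]
  show ∑ i ∈ Finset.range (d + 1), Polynomial.monomial i
    (coeff (Finsupp.single 0 i + Finsupp.single 1 (d - i))
      (monomial (Finsupp.single 0 (m 0) + Finsupp.single 1 (m 1)) c)) = _
  by_cases h2 : m 2 = 0
  · rw [Finset.sum_eq_single (m 0)]
    · rw [show d - m 0 = m 1 by omega, coeff_monomial, if_pos rfl]
      simp [h2, Polynomial.C_mul_X_pow_eq_monomial]
    · intro i hi hne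
      rw [coeff_monomial, if_neg, map_zero]
      intro h
      apply hne
      have h0 := DFunLike.congr_fun h 0
      simp at h0
      exact h0.symm
    · intro h
      exfalso
      apply h
      rw [Finset.mem_range]
      omega
  · rw [Finset.sum_eq_zero]
    · simp [h2]
    · intro i hi
      rw [Finset.mem_range] at hi
      rw [coeff_monomial, if_neg, map_zero]
      intro h
      have h0 := DFunLike.congr_fun h 0
      have h1 := DFunLike.congr_fun h 1
      simp at h0 h1
      omega

lemma top_D {d : ℕ} {H : MvPolynomial (Fin 3) k} (hH : H.IsHomogeneous d) :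
    top k d (D H) = aeval ![Polynomial.X, 1, 0] H := by
  conv_lhs => rw [H.as_sum]
  conv_rhs => rw [H.as_sum]
  rw [map_sum, map_sum, map_sum]
  exact Finset.sum_congr rfl (fun m hm => top_mono (deg3 hH hm) _)

lemma top_eval {d : ℕ} {H : MvPolynomial (Fin 3) k} (hH : H.IsHomogeneous d) (c : k) :
    (top k d (D H)).eval c = eval ![c, 1, 0] H := by
  rw [top_D hH]
  have h := comp_aeval_apply (Polynomial.aeval c : Polynomial k →ₐ[k] k)
    (f := (![Polynomial.X, 1, 0] : Fin 3 → Polynomial k)) (p := H)
  rw [Polynomial.coe_aeval_eq_eval] at h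
  rw [h]
  have e : (fun i => Polynomial.eval c ((![Polynomial.X, 1, 0] : Fin 3 → Polynomial k) i)) =
      ![c, 1, 0] := by
    funext i
    fin_cases i <;> simp
  rw [e]
  exact DFunLike.congr_fun (coe_aeval_eq_eval (![c, 1, 0] : Fin 3 → k)) H

lemma D_eval (H : MvPolynomial (Fin 3) k) (a b : k) :
    eval ![a, b] (D H) = eval ![a, b, 1] H := by
  unfold D
  have h := comp_aeval_apply (aeval ![a, b] : MvPolynomial (Fin 2) k →ₐ[k] k)
    (f := (![X 0, X 1, 1] : Fin 3 → MvPolynomial (Fin 2) k)) (p := H)
  have e : (fun i => (aeval ![a, b] : MvPolynomial (Fin 2) k →ₐ[k] k)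
      ((![X 0, X 1, 1] : Fin 3 → MvPolynomial (Fin 2) k) i)) = ![a, b, 1] := by
    funext i
    fin_cases i <;> simp
  rw [e] at h
  exact h

lemma top_coeff {d : ℕ} {H : MvPolynomial (Fin 3) k} (hH : H.IsHomogeneous d) :
    (top k d (D H)).coeff d = eval ![1, 0, 0] H := by
  classical
  rw [top_D hH]
  conv_lhs => rw [H.as_sum]
  conv_rhs => rw [H.as_sum]
  rw [map_sum, map_sum, Polynomial.finsetSum_coeff]
  refine Finset.sum_congr rfl (fun m hm => ?_)
  have h := deg3 hH hm
  rw [aeval_monomial, eval_monomial, Finsupp.prod_fintype _ _ (by simp),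
    Finsupp.prod_fintype _ _ (by simp), Fin.prod_univ_three, Fin.prod_univ_three]
  by_cases h2 : m 2 = 0
  · by_cases h1 : m 1 = 0
    · have h0 : m 0 = d := by omega
      simp [h2, h1, h0]
    · have h0 : d ≠ m 0 := by omega
      simp [h2, h1, Polynomial.coeff_X_pow, h0]
  · simp [h2]

lemma top_natDegree {d : ℕ} (f : MvPolynomial (Fin 2) k) : (top k d f).natDegree ≤ d := by
  refine Polynomial.natDegree_sum_le_of_forall_le (Finset.range (d + 1))
    (fun i => Polynomial.monomial i
      (f.coeff (Finsupp.single 0 i + Finsupp.single 1 (d - i)))) (fun i hi => ?_)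
  refine (Polynomial.natDegree_monomial_le _).trans ?_
  rw [Finset.mem_range] at hi
  omega

end Pool.Agent.H99R3.BOG
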